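import Pool.Agent.Helper24.KK.GoalsA

/-! # Project KK, packet NKG: half of the entries are kept -/

set_option autoImplicit false

namespace Pool.Agent.Helper86.KK

open Finset
open Pool.Agent.Helper24.KK

theorem rdeg_nonneg {Φ Mm : Type} [DecidableEq Φ] [Fintype Mm] {l : ℕ} (x : ℕ → ℝ)
    (u v : ℕ → Mm → Φ) (n : ℕ) (I : Ix Φ l) : 0 ≤ rdeg x u v n I :=
  sum_nonneg fun _ _ => mul_nonneg (abs_nonneg _) (Nat.cast_nonneg _)

theorem cdeg_nonneg {Φ Mm : Type} [DecidableEq Φ] [Fintype Mm] {l : ℕ} (x : ℕ → ℝ)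
    (u v : ℕ → Mm → Φ) (n : ℕ) (I : Ix Φ l) : 0 ≤ cdeg x u v n I :=
  sum_nonneg fun _ _ => mul_nonneg (abs_nonneg _) (Nat.cast_nonneg _)

theorem dz_nonneg (R l : ℕ) : 0 ≤ dz R l := sq_nonneg _

open Classical in
/-- Markov: few elements of `E` have a large value of `f`. -/
theorem markov {ι : Type} (E : Finset ι) (f : ι → ℝ) (Δ D a : ℝ) (hf : ∀ i, 0 ≤ f i)
    (hΔ : 0 < Δ) (hD : 0 ≤ D) (hs : ∑ i ∈ E, f i ≤ D * a) (ha : 4 * a ≤ Δ) :
    ((E.filter fun i => Δ < f i).card : ℝ) ≤ D / 4 := by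
  have h1 : Δ * ((E.filter fun i => Δ < f i).card : ℝ) ≤ ∑ i ∈ E, f i := by
    calc Δ * ((E.filter fun i => Δ < f i).card : ℝ)
        = ∑ i ∈ E.filter (fun i => Δ < f i), Δ := by rw [sum_const, nsmul_eq_mul, mul_comm]
      _ ≤ ∑ i ∈ E.filter (fun i => Δ < f i), f i :=
          sum_le_sum fun i hi => (mem_filter.1 hi).2.le
      _ ≤ ∑ i ∈ E, f i := sum_le_sum_of_subset_of_nonneg (filter_subset _ _) fun i _ _ => hf i
  have h2 : D * a ≤ D * (Δ / 4) := mul_le_mul_of_nonneg_left (by linarith) hD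
  have h3 : Δ * ((E.filter fun i => Δ < f i).card : ℝ) ≤ Δ * (D / 4) := by
    calc Δ * ((E.filter fun i => Δ < f i).card : ℝ) ≤ D * (Δ / 4) := by linarith
      _ = Δ * (D / 4) := by ring
  exact le_of_mul_le_mul_left h3 hΔ

theorem nkg (hE : ENC) (hR : DGR) (hC : DGC) : NKG := by
  classical
  intro Φ Mm _ _ _ _ l M x u v W Xb Δ hG hl h2 hΔ hav n hn k hk m hv
  have huu : u n m ≠ u k m := fun h => by
    have := hG.uu n hn k (lt_trans hk hn) m h
    omega
  set E : Finset (Ix Φ l × Ix Φ l) := univ.filter (fun p => Ent u v n k m p.1 p.2) with hEdef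
  have hcard : (E.card : ℝ) = dz (Fintype.card Φ) l := by
    have h := hE Φ l (u n m) (u k m) (v k m) (v n m) huu hv hl
    have h' : E.card = ((Fintype.card Φ - 2).choose (l - 1)) ^ 2 := by
      rw [← h, hEdef]
      apply congrArg
      ext p
      simp only [mem_filter, mem_univ, true_and]
      rfl
    rw [h']
    unfold dz
    push_cast
    rfl
  have hr := hR Φ Mm l M x u v W Xb hG hl h2 n hn k hk m hv
  have hc := hC Φ Mm l M x u v W Xb hG hl h2 n hn k hk m hv
  have hD := dz_nonneg (Fintype.card Φ) l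
  have hA := markov E (fun p => rdeg x u v n p.1) Δ (dz (Fintype.card Φ) l)
    (avd (Fintype.card Φ) l W Xb) (fun p => rdeg_nonneg x u v n p.1) hΔ hD
    (by rw [hEdef]; convert hr) hav
  have hB := markov E (fun p => cdeg x u v n p.2) Δ (dz (Fintype.card Φ) l)
    (avd (Fintype.card Φ) l W Xb) (fun p => cdeg_nonneg x u v n p.2) hΔ hD
    (by rw [hEdef]; convert hc) hav
  have hsub : E ⊆ (univ.filter fun p : Ix Φ l × Ix Φ l => Kept x u v Δ n k m p.1 p.2) ∪
      (E.filter (fun p => Δ < rdeg x u v n p.1) ∪ E.filter (fun p => Δ < cdeg x u v n p.2)) := by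
    intro p hp
    rw [mem_union, mem_union]
    have hp' : Ent u v n k m p.1 p.2 := (mem_filter.1 hp).2
    by_cases h1 : Δ < rdeg x u v n p.1
    · exact Or.inr (Or.inl (mem_filter.2 ⟨hp, h1⟩))
    · by_cases h3 : Δ < cdeg x u v n p.2
      · exact Or.inr (Or.inr (mem_filter.2 ⟨hp, h3⟩))
      · exact Or.inl (mem_filter.2 ⟨mem_univ _, hp', not_lt.1 h1, not_lt.1 h3⟩)
  have hle := card_le_card hsub
  have h4 : E.card ≤ nk l x u v Δ n k m + ((E.filter (fun p => Δ < rdeg x u v n p.1)).card +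
      (E.filter (fun p => Δ < cdeg x u v n p.2)).card) := by
    refine hle.trans ((card_union_le _ _).trans ?_)
    have h5 : (univ.filter fun p : Ix Φ l × Ix Φ l => Kept x u v Δ n k m p.1 p.2).card =
        nk l x u v Δ n k m := by
      unfold nk
      congr
    rw [h5]
    exact Nat.add_le_add_left (card_union_le _ _) _
  have h6 : (E.card : ℝ) ≤ (nk l x u v Δ n k m : ℝ) +
      (((E.filter (fun p => Δ < rdeg x u v n p.1)).card : ℝ) +
      ((E.filter (fun p => Δ < cdeg x u v n p.2)).card : ℝ)) := by exact_mod_cast h4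
  rw [hcard] at h6
  have hA' : ((E.filter (fun p => Δ < rdeg x u v n p.1)).card : ℝ) ≤
      dz (Fintype.card Φ) l / 4 := by convert hA
  have hB' : ((E.filter (fun p => Δ < cdeg x u v n p.2)).card : ℝ) ≤
      dz (Fintype.card Φ) l / 4 := by convert hB
  linarith

end Pool.Agent.Helper86.KK
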